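import Pool.Agent.Helper74.OKA.St.A02

/-!
# MP_7bedea_an, piece C6: the ball approximation property of a vector space
-/

set_option autoImplicit false

open Set Metric Topology MeasureTheory
open scoped Manifold ContDiff Real

namespace Pool.Agent.Helper59.OKA

open Pool.Agent.Helper74.OKA

namespace C6

variable {E F : Type} [NormedAddCommGroup E] [NormedSpace ℂ E] [FiniteDimensional ℂ E]
  [NormedAddCommGroup F] [NormedSpace ℂ F] [FiniteDimensional ℂ F]

/-- the homogeneous part of degree `k` of `f` at `c` -/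
noncomputable def hom (f : E → F) (c : E) (k : ℕ) (w : E) : F :=
  (k.factorial : ℂ)⁻¹ • iteratedDeriv k (fun ζ : ℂ => f (c + ζ • w)) 0

theorem norm_circleMap_smul (ρ : ℝ) (hρ : 0 < ρ) (θ : ℝ) (w : E) :
    ‖circleMap 0 ρ θ • w‖ = ρ * ‖w‖ := by
  rw [norm_smul]; simp [abs_of_pos hρ]

theorem line_differentiableOn {f : E → F} {c : E} {R : ℝ} (hf : DifferentiableOn ℂ f (ball c R))
    {w : E} {ρ : ℝ} (h : ρ * ‖w‖ < R) (hρ : 0 < ρ) :
    DifferentiableOn ℂ (fun ζ : ℂ => f (c + ζ • w)) (closedBall 0 ρ) := by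
  refine hf.comp (by fun_prop) ?_
  intro ζ hζ
  rw [mem_closedBall_zero_iff] at hζ
  rw [mem_ball_iff_norm, add_sub_cancel_left, norm_smul]
  refine lt_of_le_of_lt (mul_le_mul_of_nonneg_right hζ (norm_nonneg _)) h

theorem hom_eq [CompleteSpace F] {f : E → F} {c : E} {R : ℝ}
    (hf : DifferentiableOn ℂ f (ball c R)) (k : ℕ)
    {w : E} {ρ : ℝ} (h : ρ * ‖w‖ < R) (hρ : 0 < ρ) :
    hom f c k w = (2 * π * Complex.I)⁻¹ •
      ∫ θ, deriv (circleMap 0 ρ) θ • ((1 / (circleMap 0 ρ θ - 0) ^ (k + 1)) •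
        f (c + circleMap 0 ρ θ • w)) ∂(volume.restrict (Ioc 0 (2 * π))) := by
  have h1 := DifferentiableOn.circleIntegral_one_div_sub_center_pow_smul hρ k
    (line_differentiableOn hf h hρ)
  rw [circleIntegral, intervalIntegral.integral_of_le (by positivity)] at h1
  rw [h1, hom, smul_smul]
  congr 1
  have : (2 * π * Complex.I : ℂ) ≠ 0 := Complex.two_pi_I_ne_zero
  field_simp

theorem differentiable_hom {f : E → F} {c : E} {R : ℝ} (hR : 0 < R)
    (hf : DifferentiableOn ℂ f (ball c R)) (k : ℕ) : Differentiable ℂ (hom f c k) := by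
  haveI := FiniteDimensional.complete ℂ F
  haveI : ProperSpace E := FiniteDimensional.proper ℂ E
  intro w₀
  set ρ : ℝ := R / (2 * (‖w₀‖ + 1)) with hρdef
  have hw0 : 0 < ‖w₀‖ + 1 := by positivity
  have hρ : 0 < ρ := by positivity
  have hlt : ∀ w ∈ ball w₀ 1, ρ * ‖w‖ < R / 2 := by
    intro w hw
    rw [mem_ball_iff_norm] at hw
    have h1 : ‖w‖ < ‖w₀‖ + 1 := by
      have := norm_sub_norm_le w w₀
      linarith
    calc ρ * ‖w‖ < ρ * (‖w₀‖ + 1) := by gcongr
      _ = R / 2 := by rw [hρdef]; field_simp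
  have hlt' : ∀ w ∈ ball w₀ 1, ρ * ‖w‖ < R := fun w hw => (hlt w hw).trans (by linarith)
  have hmem : ∀ w ∈ ball w₀ 1, ∀ θ : ℝ, c + circleMap 0 ρ θ • w ∈ closedBall c (R / 2) := by
    intro w hw θ
    rw [mem_closedBall_iff_norm, add_sub_cancel_left, norm_circleMap_smul ρ hρ]
    exact (hlt w hw).le
  have hsub : closedBall c (R / 2) ⊆ ball c R := closedBall_subset_ball (by linarith)
  obtain ⟨M, hM⟩ := (isCompact_closedBall c (R / 2)).exists_bound_of_continuousOn
    (hf.continuousOn.mono hsub)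
  have hcm : Continuous (deriv (circleMap 0 ρ)) := by
    have : deriv (circleMap 0 ρ) = fun θ => circleMap 0 ρ θ * Complex.I := by
      funext θ; exact deriv_circleMap 0 ρ θ
    rw [this]
    exact (continuous_circleMap 0 ρ).mul continuous_const
  have hne : ∀ θ, circleMap 0 ρ θ - 0 ≠ 0 := by
    intro θ
    rw [sub_zero]
    exact circleMap_ne_center hρ.ne'
  have hdiff : DifferentiableOn ℂ (fun w => ∫ θ, deriv (circleMap 0 ρ) θ •
      ((1 / (circleMap 0 ρ θ - 0) ^ (k + 1)) • f (c + circleMap 0 ρ θ • w))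
      ∂(volume.restrict (Ioc 0 (2 * π)))) (ball w₀ 1) := by
    refine differentiableOn_integral (volume.restrict (Ioc 0 (2 * π))) (Ioc 0 (2 * π))
      measurableSet_Ioc ?_ isOpen_ball
      (fun θ w => deriv (circleMap 0 ρ) θ •
      ((1 / (circleMap 0 ρ θ - 0) ^ (k + 1)) • f (c + circleMap 0 ρ θ • w))) ?_ ?_ ?_
    · rw [Measure.restrict_apply measurableSet_Ioc.compl]
      simp
    · refine ContinuousOn.smul (hcm.comp continuous_fst).continuousOn (ContinuousOn.smul ?_ ?_)
      · refine Continuous.continuousOn ?_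
        refine continuous_const.div (((continuous_circleMap 0 ρ).comp continuous_fst).sub
          continuous_const |>.pow _) fun x => pow_ne_zero _ (hne _)
      · refine hf.continuousOn.comp (Continuous.continuousOn ?_) ?_
        · exact continuous_const.add
            (((continuous_circleMap 0 ρ).comp continuous_fst).smul continuous_snd)
        · intro x hx
          exact hsub (hmem x.2 hx.2 x.1)
    · intro θ _
      refine DifferentiableOn.const_smul (DifferentiableOn.const_smul ?_ _) _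
      refine hf.comp (by fun_prop) ?_
      intro w hw
      exact hsub (hmem w hw θ)
    · intro q hq
      refine ⟨ρ * (1 / ρ ^ (k + 1) * M), ball w₀ 1, isOpen_ball.mem_nhds hq, ?_⟩
      intro w hw θ _
      have hfw := hM _ (hmem w hw θ)
      rw [norm_smul, norm_smul, deriv_circleMap, norm_mul, norm_div, norm_pow, sub_zero,
        norm_circleMap_zero, Complex.norm_I, mul_one, norm_one, abs_of_pos hρ]
      gcongr
  have hEq : ∀ w ∈ ball w₀ 1, hom f c k w = (2 * π * Complex.I)⁻¹ •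
      ∫ θ, deriv (circleMap 0 ρ) θ • ((1 / (circleMap 0 ρ θ - 0) ^ (k + 1)) •
        f (c + circleMap 0 ρ θ • w)) ∂(volume.restrict (Ioc 0 (2 * π))) :=
    fun w hw => hom_eq hf k (hlt' w hw) hρ
  have hd2 : DifferentiableOn ℂ (hom f c k) (ball w₀ 1) :=
    (hdiff.const_smul _).congr hEq
  exact hd2.differentiableAt (isOpen_ball.mem_nhds (mem_ball_self one_pos))

theorem norm_hom_le [CompleteSpace F] {f : E → F} {c : E} {R M : ℝ}
    (hf : DifferentiableOn ℂ f (ball c R)) (hM : ∀ x ∈ ball c R, ‖f x‖ ≤ M) (k : ℕ)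
    {w : E} {ρ : ℝ} (h : ρ * ‖w‖ < R) (hρ : 0 < ρ) : ‖hom f c k w‖ ≤ M * (ρ⁻¹) ^ k := by
  have h1 : ‖iteratedDeriv k (fun ζ : ℂ => f (c + ζ • w)) 0‖ ≤ k.factorial * M / ρ ^ k := by
    refine Complex.norm_iteratedDeriv_le_of_forall_mem_sphere_norm_le k hρ
      ((line_differentiableOn hf h hρ).mono closure_ball_subset_closedBall).diffContOnCl ?_
    intro ζ hζ
    refine hM _ ?_
    rw [mem_sphere_zero_iff_norm] at hζ
    rw [mem_ball_iff_norm, add_sub_cancel_left, norm_smul, hζ]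
    exact h
  rw [hom, norm_smul, norm_inv, Complex.norm_natCast]
  have hk : (0 : ℝ) < k.factorial := by exact_mod_cast k.factorial_pos
  calc (k.factorial : ℝ)⁻¹ * ‖iteratedDeriv k (fun ζ : ℂ => f (c + ζ • w)) 0‖
      ≤ (k.factorial : ℝ)⁻¹ * (k.factorial * M / ρ ^ k) := by gcongr
    _ = M * (ρ⁻¹) ^ k := by rw [inv_pow]; field_simp

theorem hasSum_hom [CompleteSpace F] {f : E → F} {c : E} {R : ℝ}
    (hf : DifferentiableOn ℂ f (ball c R))
    {w : E} {ρ : ℝ} (h : ρ * ‖w‖ < R) (hρ : 1 < ρ) :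
    HasSum (fun k => hom f c k w) (f (c + w)) := by
  have h1 := Complex.hasSum_taylorSeries_on_ball
    ((line_differentiableOn hf h (by linarith)).mono ball_subset_closedBall)
    (show (1 : ℂ) ∈ ball 0 ρ by simpa using hρ)
  simpa [hom] using h1

theorem approx_ball {f : E → F} {c : E} {r R : ℝ} (hr : 0 < r) (hrR : r < R)
    (hf : DifferentiableOn ℂ f (ball c R)) (hb : ∃ M, ∀ x ∈ ball c R, ‖f x‖ ≤ M)
    (ε : ℝ) (hε : 0 < ε) :
    ∃ g : E → F, Differentiable ℂ g ∧ ∀ z ∈ closedBall c r, dist (g z) (f z) < ε := by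
  haveI := FiniteDimensional.complete ℂ F
  obtain ⟨M, hM⟩ := hb
  have hR : 0 < R := hr.trans hrR
  obtain ⟨ρ, hρ1, hρ2⟩ : ∃ ρ : ℝ, 1 < ρ ∧ ρ * r < R := by
    obtain ⟨s, hs1, hs2⟩ := exists_between hrR
    refine ⟨s / r, ?_, ?_⟩
    · rwa [lt_div_iff₀ hr, one_mul]
    · rwa [div_mul_cancel₀ _ hr.ne']
  have hρ0 : 0 < ρ := by linarith
  have hlt : ∀ z ∈ closedBall c r, ρ * ‖z - c‖ < R := by
    intro z hz
    rw [mem_closedBall_iff_norm] at hz
    exact lt_of_le_of_lt (mul_le_mul_of_nonneg_left hz hρ0.le) hρ2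
  have hsum : Summable fun k : ℕ => M * (ρ⁻¹) ^ k :=
    (summable_geometric_of_lt_one (by positivity) (inv_lt_one_of_one_lt₀ hρ1)).mul_left M
  have hT := tendstoUniformlyOn_tsum_nat (f := fun k z => hom f c k (z - c)) hsum
    (s := closedBall c r) (fun k z hz => norm_hom_le hf hM k (hlt z hz) hρ0)
  obtain ⟨N, hN⟩ := (Metric.tendstoUniformlyOn_iff.1 hT ε hε).exists
  refine ⟨fun z => ∑ k ∈ Finset.range N, hom f c k (z - c), ?_, ?_⟩
  · refine Differentiable.fun_sum fun k _ => ?_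
    exact (differentiable_hom hR hf k).comp (by fun_prop)
  · intro z hz
    have h1 := hN z hz
    rw [(hasSum_hom hf (hlt z hz) hρ1).tsum_eq, add_sub_cancel] at h1
    rwa [dist_comm]

end C6

variable (F : Type) [NormedAddCommGroup F] [NormedSpace ℂ F] [FiniteDimensional ℂ F]

/-- C6: the ball approximation property of a vector space -/
theorem bap_self : BAP F F := by
  intro n _ c r hr U f hU hcU hf ε hε
  rw [mdifferentiableOn_iff_differentiableOn] at hf
  obtain ⟨δ, hδ, hδU⟩ := (isCompact_closedBall c r).exists_cthickening_subset_open hU hcU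
  have hsub : closedBall c (r + δ) ⊆ U := by
    rwa [cthickening_closedBall hδ.le hr.le, add_comm] at hδU
  have hbd : ∃ M, ∀ x ∈ ball c (r + δ), ‖f x‖ ≤ M := by
    obtain ⟨M, hM⟩ := (isCompact_closedBall c (r + δ)).exists_bound_of_continuousOn
      (hf.continuousOn.mono hsub)
    exact ⟨M, fun x hx => hM x (ball_subset_closedBall hx)⟩
  obtain ⟨g, hg, hgf⟩ := C6.approx_ball hr (by linarith : r < r + δ)
    (hf.mono (ball_subset_closedBall.trans hsub)) hbd ε hε
  exact ⟨g, hg.mdifferentiable, hgf⟩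

end Pool.Agent.Helper59.OKA
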